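import Pool.Agent.Helper99.AA.Basic
import Pool.Agent.Helper7.MR.VDC
import Pool.Agent.Helper70.MR.KL
import Pool.Agent.Helper89.MR.WV
import Pool.Agent.Helper45.MR.DL

set_option autoImplicit false

/-!
Project AA, row Z: twisted sums over integers.
-/

open Finset MeasureTheory
open scoped BigOperators Nat

namespace Pool.Agent.Helper28.AA

open Pool.Agent.Helper40.MR Pool.Agent.Helper99.AA

theorem z_xiu_sub (x y u : ℝ) : ‖xiu x u - xiu y u‖ ≤ |u| * |Real.log x - Real.log y| := by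
  have h1 : xiu x u = xiu y u * Complex.exp (Complex.I * ((u * (Real.log x - Real.log y) : ℝ) : ℂ)) := by
    unfold xiu
    rw [← Complex.exp_add]
    congr 1
    push_cast
    ring
  have h2 : xiu x u - xiu y u =
      xiu y u * (Complex.exp (Complex.I * ((u * (Real.log x - Real.log y) : ℝ) : ℂ)) - 1) := by
    rw [mul_sub, ← h1, mul_one]
  rw [h2, norm_mul, norm_xiu, one_mul]
  refine (Real.norm_exp_I_mul_ofReal_sub_one_le).trans ?_
  rw [Real.norm_eq_abs, abs_mul]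

theorem z_deriv (t x : ℝ) (hx : 0 < x) : HasDerivAt (fun y : ℝ => Mt y t) (xiu x (-t)) x := by
  have h1 : HasDerivAt (fun y : ℝ => ((-t * Real.log y : ℝ) : ℂ) * Complex.I)
      (((-t * x⁻¹ : ℝ) : ℂ) * Complex.I) x :=
    (((Real.hasDerivAt_log hx.ne').const_mul (-t)).ofReal_comp).mul_const _
  have h2 := h1.cexp
  have h3 : HasDerivAt (fun y : ℝ => (y : ℂ)) 1 x := Complex.ofRealCLM.hasDerivAt
  have h4 := (h3.mul h2).div_const (1 - (t : ℂ) * Complex.I)
  have h5 := one_sub_ne t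
  have hx' : (x : ℂ) ≠ 0 := by exact_mod_cast hx.ne'
  have h6 : (1 * Complex.exp (((-t * Real.log x : ℝ) : ℂ) * Complex.I) +
      (x : ℂ) * (Complex.exp (((-t * Real.log x : ℝ) : ℂ) * Complex.I) *
        (((-t * x⁻¹ : ℝ) : ℂ) * Complex.I))) / (1 - (t : ℂ) * Complex.I) = xiu x (-t) := by
    rw [div_eq_iff h5]
    unfold xiu
    push_cast
    field_simp
    ring
  rw [h6] at h4
  exact h4

/-- one step of the comparison of the sum with the integral -/
theorem z_step (t x y z : ℝ) (hx : 0 < x) (hxy : x ≤ y) (hxz : x ≤ z) (hzy : z ≤ y) :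
    ‖Mt y t - Mt x t - ((y - x : ℝ) : ℂ) * xiu z (-t)‖ ≤ |t| * (y - x) / x * (y - x) := by
  have h1 : ∀ v ∈ Set.Icc x y, HasDerivWithinAt
      (fun v : ℝ => Mt v t - ((v - x : ℝ) : ℂ) * xiu z (-t)) (xiu v (-t) - xiu z (-t))
      (Set.Icc x y) v := by
    intro v hv
    have h2 := z_deriv t v (hx.trans_le hv.1)
    have h3 : HasDerivAt (fun v : ℝ => ((v - x : ℝ) : ℂ)) 1 v := by
      have := ((hasDerivAt_id v).sub_const x).ofReal_comp
      simpa using this
    have h4 := (h2.sub (h3.mul_const (xiu z (-t)))).hasDerivWithinAt (s := Set.Icc x y)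
    rw [one_mul] at h4
    exact h4
  have h5 : ∀ v ∈ Set.Icc x y, ‖xiu v (-t) - xiu z (-t)‖ ≤ |t| * (y - x) / x := by
    intro v hv
    refine (z_xiu_sub v z (-t)).trans ?_
    rw [abs_neg, mul_div_assoc]
    refine mul_le_mul_of_nonneg_left ?_ (abs_nonneg t)
    have hv0 : 0 < v := hx.trans_le hv.1
    have hz0 : 0 < z := hx.trans_le hxz
    have hlog : ∀ p q : ℝ, x ≤ p → p ≤ q → q ≤ y → Real.log q - Real.log p ≤ (y - x) / x := by
      intro p q hp hpq hq
      have hp0 : 0 < p := hx.trans_le hp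
      rw [← Real.log_div (hp0.trans_le hpq).ne' hp0.ne']
      have h6 := Real.log_le_sub_one_of_pos (div_pos (hp0.trans_le hpq) hp0)
      have h7 : q / p - 1 ≤ (y - x) / x := by
        rw [div_sub_one hp0.ne', div_le_div_iff₀ hp0 hx]
        nlinarith
      linarith
    rw [abs_le]
    rcases le_total v z with h | h
    · have h8 := hlog v z hv.1 h hzy
      have h9 := Real.log_le_log hv0 h
      have h10 : 0 ≤ (y - x) / x := div_nonneg (by linarith) hx.le
      constructor <;> linarith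
    · have h8 := hlog z v hxz h hv.2
      have h9 := Real.log_le_log hz0 h
      have h10 : 0 ≤ (y - x) / x := div_nonneg (by linarith) hx.le
      constructor <;> linarith
  have h6 := (convex_Icc x y).norm_image_sub_le_of_norm_hasDerivWithin_le h1 h5
    (Set.left_mem_Icc.2 hxy) (Set.right_mem_Icc.2 hxy)
  have h7 : Mt y t - Mt x t - ((y - x : ℝ) : ℂ) * xiu z (-t) =
      (Mt y t - ((y - x : ℝ) : ℂ) * xiu z (-t)) - (Mt x t - ((x - x : ℝ) : ℂ) * xiu z (-t)) := by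
    rw [sub_self]
    push_cast
    ring
  rw [h7]
  refine h6.trans (le_of_eq ?_)
  rw [Real.norm_of_nonneg (by linarith)]

/-- comparison for integers -/
theorem z_nat (t : ℝ) (N : ℕ) (hN : 1 ≤ N) :
    ‖∑ n ∈ Icc 1 N, nit n t - Mt N t‖ ≤ 2 + |t| * (1 + Real.log N) := by
  have hH : ∀ N : ℕ, 1 ≤ N → ‖∑ n ∈ Icc 1 N, nit n t - Mt N t‖ ≤
      2 + |t| * ∑ n ∈ range (N - 1), 1 / ((n : ℝ) + 1) := by
    intro N hN
    induction N, hN using Nat.le_induction with
    | base =>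
      simp only [Icc_self, sum_singleton, Nat.sub_self, range_zero, sum_empty, mul_zero, add_zero,
        Nat.cast_one]
      refine (norm_sub_le _ _).trans ?_
      have h1 := norm_Mt_le (zero_le_one) t
      rw [norm_nit]
      linarith
    | succ N hN ih =>
      have hN0 : (0 : ℝ) < N := by exact_mod_cast hN
      have h1 := z_step t N ((N : ℝ) + 1) ((N : ℝ) + 1) hN0 (by linarith) (by linarith) le_rfl
      rw [sum_Icc_succ_top (by omega)]
      have h2 : ∑ n ∈ Icc 1 N, nit n t + nit (N + 1) t - Mt ((N + 1 : ℕ) : ℝ) t =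
          (∑ n ∈ Icc 1 N, nit n t - Mt N t) -
            (Mt ((N : ℝ) + 1) t - Mt N t - (((N : ℝ) + 1 - N : ℝ) : ℂ) * xiu ((N : ℝ) + 1) (-t)) := by
        rw [nit_eq_xiu (N + 1)]
        push_cast
        ring
      rw [h2]
      refine (norm_sub_le _ _).trans ?_
      have h3 : range (N + 1 - 1) = range (N - 1 + 1) := by
        congr 1
        omega
      rw [h3, sum_range_succ]
      have h4 : ((N - 1 : ℕ) : ℝ) + 1 = N := by
        rw [Nat.cast_sub hN]
        simp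
      rw [h4]
      have h5 : |t| * ((N : ℝ) + 1 - N) / N * ((N : ℝ) + 1 - N) = |t| * (1 / N) := by
        ring
      rw [h5] at h1
      linarith
  refine (hH N hN).trans ?_
  have h6 : ∑ n ∈ range (N - 1), 1 / ((n : ℝ) + 1) ≤ 1 + Real.log N := by
    have h7 : ∑ n ∈ range (N - 1), 1 / ((n : ℝ) + 1) = ((harmonic (N - 1) : ℚ) : ℝ) := by
      rw [harmonic]
      push_cast
      simp
    rw [h7]
    rcases Nat.lt_or_ge 1 N with h | h
    · refine (harmonic_le_one_add_log _).trans ?_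
      have h8 : Real.log ((N - 1 : ℕ) : ℝ) ≤ Real.log N :=
        Real.log_le_log (by exact_mod_cast (by omega : 0 < N - 1)) (by exact_mod_cast Nat.sub_le _ _)
      linarith
    · have : N = 1 := le_antisymm h hN
      subst this
      simp
  have h9 := mul_le_mul_of_nonneg_left h6 (abs_nonneg t)
  linarith

theorem z_real (t M : ℝ) (hM : 1 ≤ M) :
    ‖Sg (fun n => nit n t) M - Mt M t‖ ≤ 3 + |t| * (2 + Real.log M) := by
  have hN : 1 ≤ ⌊M⌋₊ := (Nat.one_le_floor_iff M).2 hM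
  have hN0 : (1 : ℝ) ≤ ⌊M⌋₊ := by exact_mod_cast hN
  have h1 := z_nat t ⌊M⌋₊ hN
  have h2 := z_step t ⌊M⌋₊ M M (by linarith) (Nat.floor_le (by linarith))
    (Nat.floor_le (by linarith)) le_rfl
  have h3 : M - ⌊M⌋₊ ≤ 1 := by
    have := Nat.lt_floor_add_one M
    linarith
  have h3' : 0 ≤ M - ⌊M⌋₊ := by
    have := Nat.floor_le (by linarith : 0 ≤ M)
    linarith
  have h4 : |t| * (M - ⌊M⌋₊) / ⌊M⌋₊ * (M - ⌊M⌋₊) ≤ |t| := by
    rw [mul_div_assoc, mul_assoc]
    have h5 : (M - ⌊M⌋₊) / ⌊M⌋₊ * (M - ⌊M⌋₊) ≤ 1 := by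
      have h6 : (M - ⌊M⌋₊) / ⌊M⌋₊ ≤ 1 := by
        rw [div_le_one (by linarith)]
        linarith
      have h7 : 0 ≤ (M - ⌊M⌋₊) / ⌊M⌋₊ := div_nonneg h3' (by linarith)
      nlinarith
    nlinarith [abs_nonneg t]
  have h8 : Sg (fun n => nit n t) M - Mt M t = (∑ n ∈ Icc 1 ⌊M⌋₊, nit n t - Mt ⌊M⌋₊ t) -
      (Mt M t - Mt ⌊M⌋₊ t - ((M - ⌊M⌋₊ : ℝ) : ℂ) * xiu M (-t)) -
        ((M - ⌊M⌋₊ : ℝ) : ℂ) * xiu M (-t) := by
    unfold Sg
    ring
  rw [h8]
  refine (norm_sub_le _ _).trans ?_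
  have h9 : ‖((M - ⌊M⌋₊ : ℝ) : ℂ) * xiu M (-t)‖ ≤ 1 := by
    rw [norm_mul, norm_xiu, mul_one, Complex.norm_real, Real.norm_of_nonneg h3']
    exact h3
  have h10 := norm_sub_le (∑ n ∈ Icc 1 ⌊M⌋₊, nit n t - Mt ⌊M⌋₊ t)
    (Mt M t - Mt ⌊M⌋₊ t - ((M - ⌊M⌋₊ : ℝ) : ℂ) * xiu M (-t))
  have h11 : Real.log ⌊M⌋₊ ≤ Real.log M :=
    Real.log_le_log (by linarith) (Nat.floor_le (by linarith))
  have h12 := mul_le_mul_of_nonneg_left h11 (abs_nonneg t)
  nlinarith

/-- dyadic decomposition and `all_VDC` -/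
theorem z_dyad (A : ℝ) (hA : 1 ≤ A) : ∃ c : ℝ, 0 < c ∧ c ≤ 1 / 2 ∧ ∃ C : ℝ, 0 < C ∧ ∀ t M : ℝ,
    1 ≤ M → M ^ (1 / 2 : ℝ) ≤ |t| → |t| ≤ M ^ A → ∀ N : ℕ, (N : ℝ) ≤ M →
    ‖∑ n ∈ Icc 1 N, nit n t‖ ≤
      4 * M ^ (1 / 2 : ℝ) + (C * M ^ (1 - c) + 1) * ((Nat.log 2 N : ℝ) + 1) := by
  obtain ⟨c', hc', C, hC, h⟩ := st_VDC st_KL st_WV st_DL (2 * A) (by linarith)
  refine ⟨min c' (1 / 2), lt_min hc' (by norm_num), min_le_right _ _, C, hC, ?_⟩
  intro t M hM ht1 ht2 N
  set c := min c' (1 / 2) with hcdef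
  have hc1 : c ≤ 1 / 2 := min_le_right _ _
  have hR : (1 : ℝ) ≤ M ^ (1 / 2 : ℝ) := Real.one_le_rpow hM (by norm_num)
  have hCM : 0 ≤ C * M ^ (1 - c) := mul_nonneg hC.le (Real.rpow_nonneg (by linarith) _)
  induction N using Nat.strong_induction_on with
  | _ N ih =>
    intro hN
    by_cases hN4 : (N : ℝ) ≤ 4 * M ^ (1 / 2 : ℝ)
    · have h1 : ‖∑ n ∈ Icc 1 N, nit n t‖ ≤ N := by
        refine (norm_sum_le _ _).trans ?_
        simp [norm_nit]
      have h2 : 0 ≤ (C * M ^ (1 - c) + 1) * ((Nat.log 2 N : ℝ) + 1) := by positivity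
      linarith
    · push Not at hN4
      have hN5 : (4 : ℝ) < N := by linarith
      have hN6 : 4 < N := by exact_mod_cast hN5
      have ha0 : N / 2 < N := by omega
      have ha1 : ((N / 2 : ℕ) : ℝ) ≤ M := by
        have : ((N / 2 : ℕ) : ℝ) ≤ N := by exact_mod_cast ha0.le
        linarith
      have ha2 : (N : ℝ) ≤ 2 * ((N / 2 : ℕ) : ℝ) + 1 := by
        have : N ≤ 2 * (N / 2) + 1 := by omega
        exact_mod_cast this
      have ha3 : M ^ (1 / 2 : ℝ) ≤ ((N / 2 : ℕ) : ℝ) := by linarith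
      have ha4 : (1 : ℝ) ≤ ((N / 2 : ℕ) : ℝ) := by linarith
      have h1 := ih (N / 2) ha0 ha1
      have h2 := h ((N / 2 : ℕ) : ℝ) 0 (-t) (N / 2) (2 * (N / 2)) ha4 le_rfl zero_le_one
        (by
          rw [abs_neg]
          exact (Real.rpow_le_rpow (by linarith) ha1 (by norm_num)).trans ht1)
        (by
          rw [abs_neg]
          refine ht2.trans ?_
          have h3 : M ^ A = (M ^ (1 / 2 : ℝ)) ^ (2 * A) := by
            rw [← Real.rpow_mul (by linarith)]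
            congr 1
            ring
          rw [h3]
          exact Real.rpow_le_rpow (by linarith) ha3 (by linarith))
        le_rfl (by omega) (by push_cast; exact le_rfl)
      have h3 : ‖∑ m ∈ Ioc (N / 2) (2 * (N / 2)), nit m t‖ ≤ C * M ^ (1 - c) := by
        have h4 : ∑ m ∈ Ioc (N / 2) (2 * (N / 2)), nit m t =
            ∑ m ∈ Ioc (N / 2) (2 * (N / 2)), xiu ((m : ℝ) + 0) (-t) := by
          refine sum_congr rfl fun m _ => ?_
          rw [add_zero, nit_eq_xiu]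
        rw [h4]
        refine h2.trans (mul_le_mul_of_nonneg_left ?_ hC.le)
        exact (Real.rpow_le_rpow_of_exponent_le ha4 (by linarith [min_le_left c' (1 / 2)])).trans
          (Real.rpow_le_rpow (by linarith) ha1 (by linarith))
      have h5 : ‖∑ m ∈ Ioc (N / 2) N, nit m t‖ ≤ C * M ^ (1 - c) + 1 := by
        rcases Nat.even_or_odd' N with ⟨k, hk | hk⟩
        · have : 2 * (N / 2) = N := by omega
          rw [this] at h3
          linarith
        · have h6 : N = 2 * (N / 2) + 1 := by omega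
          have h7 : ∑ m ∈ Ioc (N / 2) N, nit m t =
              ∑ m ∈ Ioc (N / 2) (2 * (N / 2)), nit m t + nit N t := by
            conv_lhs => rw [h6]
            have h8 : (2 * (N / 2) + 1) / 2 = N / 2 := by omega
            rw [h8, Finset.sum_Ioc_succ_top (by omega), ← h6]
          rw [h7]
          refine (norm_add_le _ _).trans ?_
          rw [norm_nit]
          linarith
      have h9 : ∑ n ∈ Icc 1 N, nit n t =
          ∑ n ∈ Icc 1 (N / 2), nit n t + ∑ m ∈ Ioc (N / 2) N, nit m t := by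
        have h10 : Disjoint (Icc 1 (N / 2)) (Ioc (N / 2) N) := by
          rw [Finset.disjoint_left]
          intro x hx hx'
          rw [mem_Icc] at hx
          rw [mem_Ioc] at hx'
          omega
        rw [← sum_union h10]
        congr 1
        ext x
        simp only [mem_union, mem_Icc, mem_Ioc]
        omega
      rw [h9]
      refine (norm_add_le _ _).trans ?_
      have h11 : Nat.log 2 N = Nat.log 2 (N / 2) + 1 :=
        Nat.log_of_one_lt_of_le (by norm_num) (by omega)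
      rw [h11]
      push_cast
      linarith

/-- Z -/
theorem st_Z : ST_Z := by
  intro A hA
  obtain ⟨c, hc0, hc1, C, hC, h⟩ := z_dyad A hA
  refine ⟨c / 2, by linarith, by linarith, 9 + (5 + (C + 1) * (4 / c + 1)), by positivity, ?_⟩
  intro t M hM ht
  have hM0 : 0 < M := by linarith
  have hpow : ∀ a b : ℝ, a ≤ b → M ^ a ≤ M ^ b := fun a b hab =>
    Real.rpow_le_rpow_of_exponent_le hM hab
  have hone : ∀ a : ℝ, 0 ≤ a → 1 ≤ M ^ a := fun a ha => Real.one_le_rpow hM ha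
  have hnn : ∀ a : ℝ, 0 ≤ M ^ a := fun a => Real.rpow_nonneg hM0.le a
  rcases le_total |t| (M ^ (1 / 2 : ℝ)) with hlt | hgt
  · have h1 := z_real t M hM
    have h2 : Real.log M ≤ 4 * M ^ (1 / 4 : ℝ) := by
      have := Real.log_le_rpow_div hM0.le (by norm_num : (0 : ℝ) < 1 / 4)
      linarith
    have h3 : M ^ (1 / 2 : ℝ) * M ^ (1 / 4 : ℝ) = M ^ (3 / 4 : ℝ) := by
      rw [← Real.rpow_add hM0]
      norm_num
    have h4 : |t| * (2 + Real.log M) ≤ M ^ (1 / 2 : ℝ) * (2 + 4 * M ^ (1 / 4 : ℝ)) :=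
      mul_le_mul hlt (by linarith) (by linarith [Real.log_nonneg hM]) (hnn _)
    have h5 : M ^ (1 / 2 : ℝ) ≤ M ^ (3 / 4 : ℝ) := hpow _ _ (by norm_num)
    have h6 : M ^ (3 / 4 : ℝ) ≤ M ^ (1 - c / 2) := hpow _ _ (by linarith)
    have h7 : (1 : ℝ) ≤ M ^ (3 / 4 : ℝ) := hone _ (by norm_num)
    have h8 : 0 ≤ (5 + (C + 1) * (4 / c + 1)) * M ^ (1 - c / 2) :=
      mul_nonneg (by positivity) (hnn _)
    have h9 : M ^ (1 / 2 : ℝ) * (2 + 4 * M ^ (1 / 4 : ℝ)) =
        2 * M ^ (1 / 2 : ℝ) + 4 * M ^ (3 / 4 : ℝ) := by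
      rw [← h3]
      ring
    nlinarith
  · have ht2 : |t| ≤ M ^ A := by linarith
    have h1 := h t M hM hgt ht2 ⌊M⌋₊ (Nat.floor_le hM0.le)
    have h2 : ‖Mt M t‖ ≤ M ^ (1 / 2 : ℝ) := by
      have ht0 : t ≠ 0 := by
        intro h0
        rw [h0, abs_zero] at hgt
        have := hone (1 / 2) (by norm_num)
        linarith
      refine (norm_Mt_le' hM0.le ht0).trans ?_
      have h3 : M ^ (1 / 2 : ℝ) * M ^ (1 / 2 : ℝ) = M := by
        rw [← Real.rpow_add hM0]
        norm_num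
      rw [div_le_iff₀ (abs_pos.2 ht0)]
      calc M = M ^ (1 / 2 : ℝ) * M ^ (1 / 2 : ℝ) := h3.symm
        _ ≤ M ^ (1 / 2 : ℝ) * |t| := mul_le_mul_of_nonneg_left hgt (hnn _)
    have hN1 : 1 ≤ ⌊M⌋₊ := (Nat.one_le_floor_iff M).2 hM
    have h3 : (Nat.log 2 ⌊M⌋₊ : ℝ) ≤ 4 / c * M ^ (c / 2) := by
      have h4 : (Nat.log 2 ⌊M⌋₊ : ℝ) * Real.log 2 ≤ Real.log M := by
        rw [← Real.log_rpow (by norm_num), Real.rpow_natCast]
        refine Real.log_le_log (by positivity) ?_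
        have h5 : 2 ^ Nat.log 2 ⌊M⌋₊ ≤ ⌊M⌋₊ := Nat.pow_log_le_self 2 (by omega)
        have h6 : ((2 ^ Nat.log 2 ⌊M⌋₊ : ℕ) : ℝ) ≤ ⌊M⌋₊ := by exact_mod_cast h5
        push_cast at h6
        exact h6.trans (Nat.floor_le hM0.le)
      have h7 : Real.log M ≤ 2 / c * M ^ (c / 2) := by
        have := Real.log_le_rpow_div hM0.le (by linarith : (0 : ℝ) < c / 2)
        have h8 : M ^ (c / 2) / (c / 2) = 2 / c * M ^ (c / 2) := by
          field_simp
        rw [h8] at this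
        exact this
      have h9 : (1 / 2 : ℝ) ≤ Real.log 2 := by linarith [Real.log_two_gt_d9]
      have h10 : (Nat.log 2 ⌊M⌋₊ : ℝ) * (1 / 2) ≤ (Nat.log 2 ⌊M⌋₊ : ℝ) * Real.log 2 :=
        mul_le_mul_of_nonneg_left h9 (Nat.cast_nonneg _)
      have h11 : 4 / c * M ^ (c / 2) = 2 * (2 / c * M ^ (c / 2)) := by ring
      linarith
    have h4 : (C * M ^ (1 - c) + 1) * ((Nat.log 2 ⌊M⌋₊ : ℝ) + 1) ≤
        (C + 1) * (4 / c + 1) * M ^ (1 - c / 2) := by
      have h5 : C * M ^ (1 - c) + 1 ≤ (C + 1) * M ^ (1 - c) := by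
        have := hone (1 - c) (by linarith)
        linarith
      have h6 : (Nat.log 2 ⌊M⌋₊ : ℝ) + 1 ≤ (4 / c + 1) * M ^ (c / 2) := by
        have := hone (c / 2) (by linarith)
        linarith
      refine (mul_le_mul h5 h6 (by positivity) (mul_nonneg (by linarith) (hnn _))).trans
        (le_of_eq ?_)
      have h7 : M ^ (1 - c / 2) = M ^ (1 - c) * M ^ (c / 2) := by
        rw [← Real.rpow_add hM0]
        congr 1
        ring
      rw [h7]
      ring
    have h5 : M ^ (1 / 2 : ℝ) ≤ M ^ (1 - c / 2) := hpow _ _ (by linarith)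
    have h6 : ‖Sg (fun n => nit n t) M - Mt M t‖ ≤
        ‖∑ n ∈ Icc 1 ⌊M⌋₊, nit n t‖ + ‖Mt M t‖ := norm_sub_le _ _
    have h7 := hnn (1 - c / 2)
    nlinarith

end Pool.Agent.Helper28.AA
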